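import Pool.Agent.W120.WM.Defs

set_option autoImplicit false

open MeasureTheory Filter Topology Set

namespace Pool.Agent.W499.WM

open Pool.Agent.W120.WM
open scoped ComplexConjugate

lemma int_summable : Summable (fun m : ℤ => 1 / (1 + (m:ℝ) ^ 2)) := by
  have h1 : Summable (fun m : ℤ => 1 / (m:ℝ) ^ 2) := Real.summable_one_div_int_pow.2 (by norm_num)
  have h2 : Summable (fun m : ℤ => if m = 0 then (1:ℝ) else 0) := (hasSum_ite_eq 0 1).summable
  refine Summable.of_nonneg_of_le (fun m => by positivity) (fun m => ?_) (h1.add h2)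
  by_cases hm : m = 0
  · subst hm
    simp
  · rw [if_neg hm, add_zero]
    have : (0:ℝ) < (m:ℝ) ^ 2 := by
      have : (m:ℝ) ≠ 0 := by exact_mod_cast hm
      positivity
    gcongr
    linarith

/-- the sum of `1 / (1 + m ^ 2)` -/
noncomputable def K0 : ℝ := ∑' m : ℤ, 1 / (1 + (m:ℝ) ^ 2)

lemma K0_pos : 0 < K0 := int_summable.tsum_pos (fun m => by positivity) 0 (by norm_num)

lemma K0_ge (s : Finset ℤ) : ∑ m ∈ s, 1 / (1 + (m:ℝ) ^ 2) ≤ K0 :=
  int_summable.sum_le_tsum s (fun m _ => by positivity)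

lemma exp_bound (x : ℝ) : Real.exp (-(x ^ 2 / 16)) ≤ 512 / (1 + x ^ 2) ^ 2 := by
  rw [Real.exp_neg, le_div_iff₀ (by positivity), inv_mul_le_iff₀ (Real.exp_pos _)]
  have h := Real.quadratic_le_exp_of_nonneg (show 0 ≤ x ^ 2 / 16 by positivity)
  nlinarith [sq_nonneg x, sq_nonneg (x ^ 2)]

lemma weight_bound (x : ℝ) : Real.exp (-(x ^ 2 / 16)) ≤ 4608 / (1 + (⌊x⌋ : ℝ) ^ 2) ^ 2 := by
  refine (exp_bound x).trans ?_
  have h1 := Int.floor_le x
  have h2 := Int.lt_floor_add_one x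
  have h3 : 1 + (⌊x⌋ : ℝ) ^ 2 ≤ 3 * (1 + x ^ 2) := by
    nlinarith [sq_nonneg (x - (⌊x⌋ : ℝ)), sq_nonneg (x + (x - (⌊x⌋ : ℝ))), sq_nonneg x]
  have h4 : (1 + (⌊x⌋ : ℝ) ^ 2) ^ 2 ≤ (3 * (1 + x ^ 2)) ^ 2 := by
    gcongr
  rw [div_le_div_iff₀ (by positivity) (by positivity)]
  nlinarith

lemma log_three : 1 ≤ Real.log 3 := by
  rw [Real.le_log_iff_exp_le (by norm_num)]
  have := Real.exp_one_lt_d9
  linarith

lemma log_bound (g : ℝ) (m : ℤ) : Real.log (3 + |g + m + 1 / 2|) ≤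
    Real.log (3 + |g|) * (2 + |(m:ℝ)|) := by
  have hL : 1 ≤ Real.log (3 + |g|) := by
    refine log_three.trans (Real.log_le_log (by norm_num) ?_)
    have := abs_nonneg g
    linarith
  have ha := abs_nonneg g
  have hm := abs_nonneg (m:ℝ)
  have h1 : |g + m + 1 / 2| ≤ |g| + |(m:ℝ)| + 1 / 2 := by
    have e1 := abs_add_le (g + m) (1 / 2)
    have e2 := abs_add_le g (m:ℝ)
    have e3 : |(1:ℝ) / 2| = 1 / 2 := by norm_num
    linarith
  have h2 : 3 + |g + m + 1 / 2| ≤ (3 + |g|) * (1 + (|(m:ℝ)| + 1 / 2)) := by nlinarith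
  calc Real.log (3 + |g + m + 1 / 2|) ≤ Real.log ((3 + |g|) * (1 + (|(m:ℝ)| + 1 / 2))) :=
        Real.log_le_log (by positivity) h2
    _ = Real.log (3 + |g|) + Real.log (1 + (|(m:ℝ)| + 1 / 2)) :=
        Real.log_mul (by positivity) (by positivity)
    _ ≤ Real.log (3 + |g|) + (|(m:ℝ)| + 1 / 2) := by
        have := Real.log_le_sub_one_of_pos (show 0 < 1 + (|(m:ℝ)| + 1 / 2) by positivity)
        linarith
    _ ≤ _ := by nlinarith

lemma row_bound (h : T_CNT) : ∃ C : ℝ, 0 < C ∧ ∀ (Z : Finset ℂ), (∀ ρ ∈ Z, ρ ∈ NT) → ∀ g : ℝ,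
    ∑ ρ ∈ Z, Real.exp (-((ρ.im - g) ^ 2 / 16)) ≤ C * Real.log (3 + |g|) := by
  classical
  obtain ⟨C, hC, hcnt⟩ := h
  have hK := K0_pos
  refine ⟨3 * 4608 * C * K0, by positivity, fun Z hZ g => ?_⟩
  have hL : 1 ≤ Real.log (3 + |g|) := by
    refine log_three.trans (Real.log_le_log (by norm_num) ?_)
    have := abs_nonneg g
    linarith
  set cell : ℂ → ℤ := fun ρ => ⌊ρ.im - g⌋ with hcell
  have h1 : ∑ ρ ∈ Z, Real.exp (-((ρ.im - g) ^ 2 / 16)) ≤
      ∑ ρ ∈ Z, (fun m : ℤ => 4608 / (1 + (m : ℝ) ^ 2) ^ 2) (cell ρ) :=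
    Finset.sum_le_sum fun ρ _ => weight_bound (ρ.im - g)
  refine h1.trans ?_
  rw [Finset.sum_comp (fun m : ℤ => 4608 / (1 + (m : ℝ) ^ 2) ^ 2) cell]
  have hm : ∀ m ∈ Finset.image cell Z, (Z.filter (fun a => cell a = m)).card •
      (4608 / (1 + (m : ℝ) ^ 2) ^ 2) ≤
      3 * 4608 * C * Real.log (3 + |g|) * (1 / (1 + (m:ℝ) ^ 2)) := by
    intro m _
    have hc := hcnt Z hZ (g + m + 1 / 2)
    have hsub : Z.filter (fun a => cell a = m) ⊆
        Z.filter (fun ρ => |ρ.im - (g + m + 1 / 2)| ≤ 1) := by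
      intro a ha
      rw [Finset.mem_filter] at ha ⊢
      refine ⟨ha.1, ?_⟩
      have e := ha.2
      rw [hcell] at e
      simp only [Int.floor_eq_iff] at e
      rw [abs_le]
      constructor <;> linarith [e.1, e.2]
    have hcard : ((Z.filter (fun a => cell a = m)).card : ℝ) ≤
        C * (Real.log (3 + |g|) * (2 + |(m:ℝ)|)) := by
      have e1 : ((Z.filter (fun a => cell a = m)).card : ℝ) ≤
          ((Z.filter (fun ρ => |ρ.im - (g + m + 1 / 2)| ≤ 1)).card : ℝ) := by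
        exact_mod_cast Finset.card_le_card hsub
      have e2 := log_bound g m
      calc _ ≤ _ := e1
        _ ≤ _ := hc
        _ ≤ _ := by gcongr
    rw [nsmul_eq_mul]
    have hmn := abs_nonneg (m:ℝ)
    have hm2 : 2 + |(m:ℝ)| ≤ 3 * (1 + (m:ℝ) ^ 2) := by
      rw [← sq_abs (m:ℝ)]
      nlinarith [sq_nonneg (|(m:ℝ)| - 1)]
    calc ((Z.filter (fun a => cell a = m)).card : ℝ) * (4608 / (1 + (m : ℝ) ^ 2) ^ 2)
        ≤ (C * (Real.log (3 + |g|) * (3 * (1 + (m:ℝ) ^ 2)))) * (4608 / (1 + (m : ℝ) ^ 2) ^ 2) := by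
          refine mul_le_mul_of_nonneg_right (hcard.trans ?_) (by positivity)
          gcongr
      _ = 3 * 4608 * C * Real.log (3 + |g|) * (1 / (1 + (m:ℝ) ^ 2)) := by
          have : (1 + (m:ℝ) ^ 2) ≠ 0 := by positivity
          field_simp
  refine (Finset.sum_le_sum hm).trans ?_
  rw [← Finset.mul_sum]
  have hK2 := K0_ge (Finset.image cell Z)
  calc _ ≤ 3 * 4608 * C * Real.log (3 + |g|) * K0 :=
        mul_le_mul_of_nonneg_left hK2 (by positivity)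
    _ = _ := by ring

/-- the constant of the Gaussian integral -/
noncomputable def A0 : ℝ := ‖((Real.pi : ℂ) / -(-4)) ^ (1 / 2 : ℂ)‖ * Real.exp 1

lemma core {ι : Type*} (Z : Finset ι) (g : ι → ℝ) (b : ι → ℂ) :
    ∫ u in (-1 / 2 : ℝ)..(1 / 2), ‖∑ i ∈ Z, b i * Complex.exp (Complex.I * g i * u)‖ ^ 2 ≤
      A0 * ∑ i ∈ Z, ∑ j ∈ Z, ‖b i‖ * ‖b j‖ * Real.exp (-((g i - g j) ^ 2 / 16)) := by
  set S : ℝ → ℂ := fun u => ∑ i ∈ Z, b i * Complex.exp (Complex.I * g i * u) with hS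
  set w : ℝ → ℝ := fun u => Real.exp (1 - 4 * u ^ 2) with hw
  set F : ι → ι → ℝ → ℂ := fun i j u => b i * conj (b j) *
    Complex.exp ((-4 : ℂ) * u ^ 2 + (Complex.I * (g i - g j)) * u + 1) with hF
  have hFi : ∀ i j, Integrable (F i j) := fun i j =>
    (integrable_cexp_quadratic (by norm_num) _ _).const_mul _
  have hFint : ∀ i j, ‖∫ u, F i j u‖ ≤ A0 * (‖b i‖ * ‖b j‖ * Real.exp (-((g i - g j) ^ 2 / 16))) := by
    intro i j
    have e1 : ∫ u, F i j u = b i * conj (b j) * (((Real.pi : ℂ) / -(-4)) ^ (1 / 2 : ℂ) *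
        Complex.exp (1 - (Complex.I * (g i - g j)) ^ 2 / (4 * (-4)))) := by
      rw [hF]
      simp only
      rw [integral_const_mul, integral_cexp_quadratic (by norm_num)]
    have e2 : (1 : ℂ) - (Complex.I * (g i - g j)) ^ 2 / (4 * (-4)) =
        ((1 + -((g i - g j) ^ 2 / 16) : ℝ) : ℂ) := by
      push_cast
      rw [mul_pow, Complex.I_sq]
      ring
    rw [e1, e2, norm_mul, norm_mul, norm_mul, Complex.norm_exp_ofReal, Complex.norm_conj,
      Real.exp_add]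
    unfold A0
    exact le_of_eq (by ring)
  have hexp : ∀ u, ((w u * ‖S u‖ ^ 2 : ℝ) : ℂ) = ∑ i ∈ Z, ∑ j ∈ Z, F i j u := by
    intro u
    have e1 : ((‖S u‖ ^ 2 : ℝ) : ℂ) = S u * conj (S u) := by
      rw [Complex.mul_conj']
      push_cast
      ring
    rw [Complex.ofReal_mul, e1, hS]
    simp only [map_sum, map_mul]
    rw [Finset.sum_mul_sum, Finset.mul_sum]
    refine Finset.sum_congr rfl fun i _ => ?_
    rw [Finset.mul_sum]
    refine Finset.sum_congr rfl fun j _ => ?_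
    have e2 : conj (Complex.exp (Complex.I * (g j : ℂ) * (u : ℂ))) =
        Complex.exp (-(Complex.I * g j * u)) := by
      rw [← Complex.exp_conj]
      congr 1
      simp
    rw [e2, hw, hF]
    simp only [Complex.ofReal_exp]
    have e3 : (Complex.exp (((1 - 4 * u ^ 2 : ℝ)) : ℂ)) * (b i * Complex.exp (Complex.I * g i * u) *
        (conj (b j) * Complex.exp (-(Complex.I * g j * u)))) =
        b i * conj (b j) * (Complex.exp (((1 - 4 * u ^ 2 : ℝ)) : ℂ) *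
          Complex.exp (Complex.I * g i * u) * Complex.exp (-(Complex.I * g j * u))) := by ring
    rw [e3, ← Complex.exp_add, ← Complex.exp_add]
    congr 2
    push_cast
    ring
  have hint : Integrable (fun u => w u * ‖S u‖ ^ 2) := by
    have h1 : Integrable (fun u => ∑ i ∈ Z, ∑ j ∈ Z, F i j u) :=
      integrable_finsetSum _ fun i _ => integrable_finsetSum _ fun j _ => hFi i j
    have h2 := h1.re
    refine h2.congr (Filter.Eventually.of_forall fun u => ?_)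
    have := congrArg Complex.re (hexp u)
    rw [Complex.ofReal_re] at this
    exact this.symm
  have hval : ∫ u, w u * ‖S u‖ ^ 2 ≤
      A0 * ∑ i ∈ Z, ∑ j ∈ Z, ‖b i‖ * ‖b j‖ * Real.exp (-((g i - g j) ^ 2 / 16)) := by
    have h1 : ((∫ u, w u * ‖S u‖ ^ 2 : ℝ) : ℂ) = ∑ i ∈ Z, ∑ j ∈ Z, ∫ u, F i j u := by
      rw [← integral_complex_ofReal]
      simp_rw [hexp]
      rw [integral_finsetSum _ fun i _ => integrable_finsetSum _ fun j _ => hFi i j]
      refine Finset.sum_congr rfl fun i _ => ?_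
      rw [integral_finsetSum _ fun j _ => hFi i j]
    have h2 : ∫ u, w u * ‖S u‖ ^ 2 ≤ ‖((∫ u, w u * ‖S u‖ ^ 2 : ℝ) : ℂ)‖ := by
      rw [Complex.norm_real]
      exact le_abs_self _
    refine h2.trans ?_
    rw [h1, Finset.mul_sum]
    refine (norm_sum_le _ _).trans (Finset.sum_le_sum fun i _ => ?_)
    rw [Finset.mul_sum]
    refine (norm_sum_le _ _).trans (Finset.sum_le_sum fun j _ => hFint i j)
  refine le_trans ?_ hval
  have hScont : Continuous (fun u => ‖S u‖ ^ 2) := by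
    rw [hS]
    fun_prop
  rw [intervalIntegral.integral_of_le (by norm_num)]
  refine le_trans (setIntegral_mono_on (hScont.integrableOn_Ioc) hint.integrableOn
    measurableSet_Ioc ?_) (setIntegral_le_integral hint (Filter.Eventually.of_forall fun u => by
      positivity))
  intro u hu
  have h1 : 1 ≤ w u := by
    rw [hw]
    simp only
    refine Real.one_le_exp ?_
    nlinarith [hu.1, hu.2]
  have h2 : 0 ≤ ‖S u‖ ^ 2 := by positivity
  nlinarith

/-- the mean square bound, given the counting bound -/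
theorem ms (h : T_CNT) : T_MS := by
  classical
  obtain ⟨C, hC, hrow⟩ := row_bound h
  have hA0 : 0 ≤ A0 := by unfold A0; positivity
  refine ⟨A0 * C + 1, by positivity, fun Z b V hZ => ?_⟩
  have hNT : ∀ ρ ∈ Z, ρ ∈ NT := fun ρ hρ => (hZ ρ hρ).1
  set c : ℝ := V + 1 / 2 with hc
  have h1 : ∫ v in V..(V + 1), ‖∑ ρ ∈ Z, b ρ * Complex.exp (Complex.I * ρ.im * v)‖ ^ 2 =
      ∫ u in (-1 / 2 : ℝ)..(1 / 2), ‖∑ ρ ∈ Z, (b ρ * Complex.exp (Complex.I * ρ.im * c)) *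
        Complex.exp (Complex.I * ρ.im * u)‖ ^ 2 := by
    have e := intervalIntegral.integral_comp_add_right (a := (-1 / 2 : ℝ)) (b := 1 / 2)
      (fun v : ℝ => ‖∑ ρ ∈ Z, b ρ * Complex.exp (Complex.I * ρ.im * v)‖ ^ 2) c
    have e1 : (-1 / 2 : ℝ) + c = V := by rw [hc]; ring
    have e2 : (1 / 2 : ℝ) + c = V + 1 := by rw [hc]; ring
    rw [e1, e2] at e
    rw [← e]
    congr 1
    funext u
    congr 2
    refine Finset.sum_congr rfl fun ρ _ => ?_
    rw [mul_assoc (b ρ), ← Complex.exp_add]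
    congr 2
    push_cast
    ring
  rw [h1]
  refine (core Z (fun ρ => ρ.im) (fun ρ => b ρ * Complex.exp (Complex.I * ρ.im * c))).trans ?_
  have hnorm : ∀ ρ : ℂ, ‖b ρ * Complex.exp (Complex.I * ρ.im * c)‖ = ‖b ρ‖ := by
    intro ρ
    rw [norm_mul]
    have : Complex.I * (ρ.im : ℂ) * (c : ℂ) = ((ρ.im * c : ℝ) : ℂ) * Complex.I := by
      push_cast; ring
    rw [this, Complex.norm_exp_ofReal_mul_I, mul_one]
  simp only [hnorm]
  have h2 : ∑ i ∈ Z, ∑ j ∈ Z, ‖b i‖ * ‖b j‖ * Real.exp (-((i.im - j.im) ^ 2 / 16)) ≤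
      ∑ i ∈ Z, ‖b i‖ ^ 2 * (C * Real.log (3 + |i.im|)) := by
    have hsym : ∑ i ∈ Z, ∑ j ∈ Z, ‖b j‖ ^ 2 * Real.exp (-((i.im - j.im) ^ 2 / 16)) =
        ∑ i ∈ Z, ∑ j ∈ Z, ‖b i‖ ^ 2 * Real.exp (-((j.im - i.im) ^ 2 / 16)) :=
      Finset.sum_comm
    have hsym2 : ∑ i ∈ Z, ∑ j ∈ Z, ‖b i‖ ^ 2 * Real.exp (-((i.im - j.im) ^ 2 / 16)) =
        ∑ i ∈ Z, ∑ j ∈ Z, ‖b i‖ ^ 2 * Real.exp (-((j.im - i.im) ^ 2 / 16)) := by
      refine Finset.sum_congr rfl fun i _ => Finset.sum_congr rfl fun j _ => ?_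
      congr 4
      ring
    have h3 : ∑ i ∈ Z, ∑ j ∈ Z, ‖b i‖ * ‖b j‖ * Real.exp (-((i.im - j.im) ^ 2 / 16)) ≤
        ∑ i ∈ Z, ∑ j ∈ Z, (1 / 2 * (‖b i‖ ^ 2 * Real.exp (-((i.im - j.im) ^ 2 / 16))) +
          1 / 2 * (‖b j‖ ^ 2 * Real.exp (-((i.im - j.im) ^ 2 / 16)))) := by
      refine Finset.sum_le_sum fun i _ => Finset.sum_le_sum fun j _ => ?_
      have e1 := Real.exp_pos (-((i.im - j.im) ^ 2 / 16))
      nlinarith [mul_nonneg e1.le (sq_nonneg (‖b i‖ - ‖b j‖))]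
    refine h3.trans ?_
    simp only [Finset.sum_add_distrib, ← Finset.mul_sum]
    rw [hsym]
    simp only [← Finset.mul_sum] at hsym2 ⊢
    rw [hsym2]
    have h4 : ∑ i ∈ Z, ‖b i‖ ^ 2 * ∑ j ∈ Z, Real.exp (-((j.im - i.im) ^ 2 / 16)) ≤
        ∑ i ∈ Z, ‖b i‖ ^ 2 * (C * Real.log (3 + |i.im|)) :=
      Finset.sum_le_sum fun i _ => mul_le_mul_of_nonneg_left (hrow Z hNT i.im) (by positivity)
    linarith
  have hpos : 0 ≤ ∑ ρ ∈ Z, ‖b ρ‖ ^ 2 * Real.log (3 + |ρ.im|) := by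
    refine Finset.sum_nonneg fun ρ _ => mul_nonneg (by positivity) (Real.log_nonneg ?_)
    have := abs_nonneg ρ.im
    linarith
  calc A0 * ∑ i ∈ Z, ∑ j ∈ Z, ‖b i‖ * ‖b j‖ * Real.exp (-((i.im - j.im) ^ 2 / 16))
      ≤ A0 * ∑ i ∈ Z, ‖b i‖ ^ 2 * (C * Real.log (3 + |i.im|)) :=
        mul_le_mul_of_nonneg_left h2 hA0
    _ = A0 * C * ∑ ρ ∈ Z, ‖b ρ‖ ^ 2 * Real.log (3 + |ρ.im|) := by
        rw [mul_assoc, Finset.mul_sum, Finset.mul_sum, Finset.mul_sum]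
        refine Finset.sum_congr rfl fun i _ => ?_
        ring
    _ ≤ _ := by nlinarith

end Pool.Agent.W499.WM
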